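import Pool.Agent.H84.PP.Stm

/-! # Project PP, module RTP (helper99): square roots modulo prime powers -/

set_option autoImplicit false

namespace Pool.Agent.H99.PP

open Pool.Agent.H84.PP

theorem zero_iff (n : ℕ) (a : ℤ) : ((a : ℤ) : ZMod n) = 0 ↔ (n : ℤ) ∣ a :=
  CharP.intCast_eq_zero_iff (ZMod n) n a

theorem two_tors (k : ℕ) (hk : 1 ≤ k) (t : ZMod (2 ^ k)) (ht : 2 * t = 0) :
    t = 0 ∨ t = ((2 ^ (k - 1) : ℕ) : ZMod (2 ^ k)) := by
  haveI : NeZero (2 ^ k) := ⟨by positivity⟩
  obtain ⟨x, hx, hxt⟩ : ∃ x : ℕ, x < 2 ^ k ∧ (x : ZMod (2 ^ k)) = t :=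
    ⟨t.val, ZMod.val_lt t, ZMod.natCast_zmod_val t⟩
  rw [← hxt] at ht
  have h1 : ((2 * x : ℕ) : ZMod (2 ^ k)) = 0 := by
    rw [Nat.cast_mul]
    exact ht
  rw [ZMod.natCast_eq_zero_iff] at h1
  obtain ⟨c, hc⟩ := h1
  have h2 : 2 ^ k = 2 * 2 ^ (k - 1) := by
    rw [← pow_succ']
    congr 1
    omega
  have h3 : x = 2 ^ (k - 1) * c := by
    have h4 : 2 * x = 2 * (2 ^ (k - 1) * c) := by rw [hc, h2]; ring
    exact Nat.eq_of_mul_eq_mul_left (by norm_num) h4
  have h4 : c < 2 := by
    by_contra h
    push Not at h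
    have h5 : 2 ^ (k - 1) * 2 ≤ x := by
      rw [h3]
      exact Nat.mul_le_mul_left _ h
    rw [h2] at hx
    omega
  interval_cases c
  · left
    rw [← hxt, h3]
    simp
  · right
    rw [← hxt, h3, mul_one]

theorem rtp : S_RTP := by
  intro q k d hq hk hd
  have hn0 : q ^ k ≠ 0 := pow_ne_zero _ hq.ne_zero
  haveI : NeZero (q ^ k) := ⟨hn0⟩
  have hqi : Prime (q : ℤ) := Nat.prime_iff_prime_int.1 hq
  have hqn : (q : ℤ) ∣ ((q ^ k : ℕ) : ℤ) := by
    rw [Nat.cast_pow]
    exact dvd_pow_self _ (by omega)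
  have hroot : ∀ a : ℤ, ((a : ZMod (q ^ k)) ^ 2 = (d : ZMod (q ^ k))) →
      ((q ^ k : ℕ) : ℤ) ∣ a ^ 2 - d := by
    intro a ha
    rw [← zero_iff, Int.cast_sub, Int.cast_pow, ha, sub_self]
  have hqa' : ∀ x y : ℤ, y = x ^ 2 - (x ^ 2 - y) := fun x y => by ring
  by_cases hqd : (q : ℤ) ∣ d
  · have h1 : {r : ZMod (q ^ k) | r ^ 2 = (d : ZMod (q ^ k))} ⊆ {0} := by
      intro r hr
      obtain ⟨a, rfl⟩ := ZMod.intCast_surjective r
      have h2 := hroot a hr
      have h3 : (q : ℤ) ∣ a ^ 2 := by
        have h4 : a ^ 2 = (a ^ 2 - d) + d := by ring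
        rw [h4]
        exact dvd_add (hqn.trans h2) hqd
      have h4 := hqi.dvd_of_dvd_pow h3
      have hk1 : k = 1 := by
        by_contra hk1
        have h5 : (q : ℤ) * q ∣ ((q ^ k : ℕ) : ℤ) := by
          rw [Nat.cast_pow, ← pow_two]
          exact pow_dvd_pow _ (by omega)
        have h6 : (q : ℤ) * q ∣ a ^ 2 := by
          rw [pow_two]
          exact mul_dvd_mul h4 h4
        have h7 : (q : ℤ) * q ∣ d := by
          rw [hqa' a d]
          exact dvd_sub h6 (h5.trans h2)
        exact hqi.not_unit (hd _ h7)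
      rw [Set.mem_singleton_iff, zero_iff, hk1, pow_one]
      exact h4
    have h2 := Set.ncard_le_ncard h1 (Set.finite_singleton _)
    rw [Set.ncard_singleton] at h2
    split_ifs <;> omega
  · by_cases hne : {r : ZMod (q ^ k) | r ^ 2 = (d : ZMod (q ^ k))} = ∅
    · rw [hne, Set.ncard_empty]
      exact Nat.zero_le _
    obtain ⟨r0, hr0⟩ := Set.nonempty_iff_ne_empty.2 hne
    obtain ⟨a, rfl⟩ := ZMod.intCast_surjective r0
    have ha := hroot a hr0
    have hqa : ∀ x : ℤ, ((q ^ k : ℕ) : ℤ) ∣ x ^ 2 - d → ¬ (q : ℤ) ∣ x := by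
      intro x hx hqx
      apply hqd
      rw [hqa' x d]
      exact dvd_sub (dvd_pow hqx two_ne_zero) (hqn.trans hx)
    have hcopr : ∀ x : ℤ, ¬ (q : ℤ) ∣ x → IsCoprime ((q ^ k : ℕ) : ℤ) x := by
      intro x hx
      rw [Nat.cast_pow]
      exact IsCoprime.pow_left ((Prime.coprime_iff_not_dvd hqi).2 hx)
    have hprod : ∀ b : ℤ, ((q ^ k : ℕ) : ℤ) ∣ b ^ 2 - d → ((q ^ k : ℕ) : ℤ) ∣ (b - a) * (b + a) := by
      intro b hb
      have h5 : (b - a) * (b + a) = (b ^ 2 - d) - (a ^ 2 - d) := by ring
      rw [h5]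
      exact dvd_sub hb ha
    by_cases hq2 : q = 2
    · rw [if_pos hq2]
      subst hq2
      have hsub : {r : ZMod (2 ^ k) | r ^ 2 = (d : ZMod (2 ^ k))} ⊆
          ({(a : ZMod (2 ^ k)), ((2 ^ (k - 1) : ℕ) : ZMod (2 ^ k)) + a, -(a : ZMod (2 ^ k)),
            ((2 ^ (k - 1) : ℕ) : ZMod (2 ^ k)) - a} : Finset (ZMod (2 ^ k))) := by
        intro r hr
        obtain ⟨b, rfl⟩ := ZMod.intCast_surjective r
        have hb := hroot b hr
        have h5 := hprod b hb
        have hao : ¬ (2 : ℤ) ∣ a := hqa a ha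
        have hbo : ¬ (2 : ℤ) ∣ b := hqa b hb
        simp only [Finset.coe_insert, Finset.coe_singleton, Set.mem_insert_iff,
          Set.mem_singleton_iff]
        by_cases h6 : (4 : ℤ) ∣ b - a
        · -- `b + a = 2 u`, `u` odd
          obtain ⟨u, hu⟩ : ∃ u, b + a = 2 * u := ⟨(b + a) / 2, by omega⟩
          have huo : ¬ ((2 : ℕ) : ℤ) ∣ u := by
            intro h7
            have : (2 : ℤ) ∣ u := h7
            omega
          have h7 : ((2 ^ k : ℕ) : ℤ) ∣ 2 * (b - a) := by
            refine (hcopr u huo).dvd_of_dvd_mul_right ?_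
            have h8 : 2 * (b - a) * u = (b - a) * (b + a) := by rw [hu]; ring
            rw [h8]
            exact h5
          have h8 := (zero_iff _ _).2 h7
          rw [Int.cast_mul, Int.cast_ofNat] at h8
          rcases two_tors k hk _ h8 with h9 | h9
          · left
            rw [Int.cast_sub] at h9
            exact sub_eq_zero.1 h9
          · right; left
            rw [Int.cast_sub] at h9
            exact sub_eq_iff_eq_add.1 h9
        · obtain ⟨u, hu⟩ : ∃ u, b - a = 2 * u := ⟨(b - a) / 2, by omega⟩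
          have huo : ¬ ((2 : ℕ) : ℤ) ∣ u := by
            intro h7
            have : (2 : ℤ) ∣ u := h7
            omega
          have h7 : ((2 ^ k : ℕ) : ℤ) ∣ 2 * (b + a) := by
            refine (hcopr u huo).dvd_of_dvd_mul_right ?_
            have h8 : 2 * (b + a) * u = (b - a) * (b + a) := by rw [hu]; ring
            rw [h8]
            exact h5
          have h8 := (zero_iff _ _).2 h7
          rw [Int.cast_mul, Int.cast_ofNat] at h8
          rcases two_tors k hk _ h8 with h9 | h9
          · right; right; left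
            rw [Int.cast_add] at h9
            exact eq_neg_of_add_eq_zero_left h9
          · right; right; right
            rw [Int.cast_add] at h9
            exact eq_sub_of_add_eq h9
      have h2 := Set.ncard_le_ncard hsub (Finset.finite_toSet _)
      rw [Set.ncard_coe_finset] at h2
      exact h2.trans Finset.card_le_four
    · rw [if_neg hq2]
      have hsub : {r : ZMod (q ^ k) | r ^ 2 = (d : ZMod (q ^ k))} ⊆
          ({(a : ZMod (q ^ k)), -(a : ZMod (q ^ k))} : Finset (ZMod (q ^ k))) := by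
        intro r hr
        obtain ⟨b, rfl⟩ := ZMod.intCast_surjective r
        have hb := hroot b hr
        have h5 := hprod b hb
        simp only [Finset.coe_insert, Finset.coe_singleton, Set.mem_insert_iff,
          Set.mem_singleton_iff]
        by_cases h6 : (q : ℤ) ∣ b - a
        · left
          have h7 : ¬ (q : ℤ) ∣ b + a := by
            intro h8
            have h9 : (q : ℤ) ∣ 2 * a := by
              have h10 := dvd_sub h8 h6
              have e : (b + a) - (b - a) = 2 * a := by ring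
              rwa [e] at h10
            rcases hqi.dvd_or_dvd h9 with h10 | h10
            · have h11 : q ∣ 2 := by exact_mod_cast h10
              exact hq2 ((Nat.prime_dvd_prime_iff_eq hq Nat.prime_two).1 h11)
            · exact hqa a ha h10
          have h8 := (hcopr _ h7).dvd_of_dvd_mul_right h5
          have h9 := (zero_iff _ _).2 h8
          rw [Int.cast_sub] at h9
          exact sub_eq_zero.1 h9
        · right
          have h8 := (hcopr _ h6).dvd_of_dvd_mul_left h5
          have h9 := (zero_iff _ _).2 h8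
          rw [Int.cast_add] at h9
          exact eq_neg_of_add_eq_zero_left h9
      have h2 := Set.ncard_le_ncard hsub (Finset.finite_toSet _)
      rw [Set.ncard_coe_finset] at h2
      exact h2.trans Finset.card_le_two

end Pool.Agent.H99.PP
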